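import Pool.Agent.N89.BD.Stm

/-!
# MP_9b9442_nt: the number of the solutions over a finite field of a Frobenius-stable linear system
-/

set_option autoImplicit false

namespace Pool.Agent.N614.BD.LNO

open Finset

theorem mem_of_pow {k Ω : Type} [Field k] [Fintype k] [Field Ω] [Algebra k Ω] (z : Ω)
    (h : z ^ Fintype.card k = z) : ∃ c : k, algebraMap k Ω c = z := by
  classical
  have h1 : 1 < Fintype.card k := Fintype.one_lt_card
  let P : Polynomial Ω := Polynomial.X ^ Fintype.card k - Polynomial.X
  have hP : P ≠ 0 := FiniteField.X_pow_card_sub_X_ne_zero Ω h1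
  have hdeg : P.natDegree = Fintype.card k := FiniteField.X_pow_card_sub_X_natDegree_eq Ω h1
  let S : Finset Ω := (Finset.univ : Finset k).image (algebraMap k Ω)
  have hS : S.card = Fintype.card k := by
    rw [Finset.card_image_of_injective _ (algebraMap k Ω).injective, Finset.card_univ]
  have hsub : S ⊆ P.roots.toFinset := by
    intro x hx
    obtain ⟨c, -, rfl⟩ := Finset.mem_image.1 hx
    rw [Multiset.mem_toFinset, Polynomial.mem_roots hP]
    simp only [P, Polynomial.IsRoot.def, Polynomial.eval_sub, Polynomial.eval_pow,
      Polynomial.eval_X]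
    rw [← map_pow, FiniteField.pow_card, sub_self]
  have hcard : P.roots.toFinset.card ≤ S.card := by
    rw [hS, ← hdeg]
    exact (Multiset.toFinset_card_le _).trans (Polynomial.card_roots' P)
  have heq := Finset.eq_of_subset_of_card_le hsub hcard
  have hz : z ∈ P.roots.toFinset := by
    rw [Multiset.mem_toFinset, Polynomial.mem_roots hP]
    simp only [P, Polynomial.IsRoot.def, Polynomial.eval_sub, Polynomial.eval_pow,
      Polynomial.eval_X]
    rw [h, sub_self]
  rw [← heq] at hz
  obtain ⟨c, -, hc⟩ := Finset.mem_image.1 hz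
  exact ⟨c, hc⟩

section

variable {k Ω : Type} [Field k] [Fintype k] [Field Ω] [Algebra k Ω]

/-- the `q`-th power of a sum -/
theorem sum_pow_q {J : Type} (s : Finset J) (f : J → Ω) :
    (∑ j ∈ s, f j) ^ Fintype.card k = ∑ j ∈ s, f j ^ Fintype.card k := by
  exact map_sum (FiniteField.frobeniusAlgHom k Ω) f s

variable {ι I : Type} [Fintype ι] [Fintype I] (π : Equiv.Perm I)

omit [Fintype I] in
theorem indep_up {J : Type} (v : J → I → Ω)
    (hv : ∀ j i, v j i ^ Fintype.card k = v j (π i)) (hl : LinearIndependent k v) :
    ∀ (s : Finset J) (l : J → Ω), (∑ j ∈ s, l j • v j = 0) → ∀ j ∈ s, l j = 0 := by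
  classical
  intro s
  induction s using Finset.induction_on with
  | empty => intro l _ j hj; simp at hj
  | insert a s ha ih =>
    intro l hsum
    by_cases hla : l a = 0
    · rw [Finset.sum_insert ha, hla, zero_smul, zero_add] at hsum
      intro j hj
      rcases Finset.mem_insert.1 hj with h | h
      · rw [h]; exact hla
      · exact ih l hsum j h
    · exfalso
      set μ : J → Ω := fun j => (l a)⁻¹ * l j with hμ
      have hμa : μ a = 1 := inv_mul_cancel₀ hla
      have h1 : ∑ j ∈ insert a s, μ j • v j = 0 := by
        have : ∑ j ∈ insert a s, μ j • v j = (l a)⁻¹ • ∑ j ∈ insert a s, l j • v j := by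
          rw [Finset.smul_sum]
          exact Finset.sum_congr rfl fun j _ => by rw [hμ, mul_smul]
        rw [this, hsum, smul_zero]
      have h2 : ∑ j ∈ insert a s, (μ j ^ Fintype.card k) • v j = 0 := by
        funext i
        have h3 := congrFun h1 (π.symm i)
        rw [Finset.sum_apply] at h3 ⊢
        have h4 : (∑ j ∈ insert a s, (μ j • v j) (π.symm i)) ^ Fintype.card k =
            ∑ j ∈ insert a s, ((μ j ^ Fintype.card k) • v j) i := by
          rw [sum_pow_q]
          refine Finset.sum_congr rfl fun j _ => ?_
          rw [Pi.smul_apply, Pi.smul_apply, smul_eq_mul, smul_eq_mul, mul_pow, hv j (π.symm i),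
            Equiv.apply_symm_apply]
        rw [← h4, h3]
        simp [Fintype.card_ne_zero]
      have h5 : ∑ j ∈ s, (μ j ^ Fintype.card k - μ j) • v j = 0 := by
        have h6 : ∑ j ∈ insert a s, (μ j ^ Fintype.card k - μ j) • v j = 0 := by
          simp only [sub_smul, Finset.sum_sub_distrib]
          rw [h1, h2, sub_zero]
        rw [Finset.sum_insert ha, hμa, one_pow, sub_self, zero_smul, zero_add] at h6
        exact h6
      have h7 := ih _ h5
      have h8 : ∀ j ∈ insert a s, ∃ c : k, algebraMap k Ω c = μ j := by
        intro j hj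
        rcases Finset.mem_insert.1 hj with h | h
        · exact ⟨1, by rw [h, hμa, map_one]⟩
        · exact mem_of_pow _ (sub_eq_zero.1 (h7 j h))
      choose! c hc using h8
      have h9 : ∑ j ∈ insert a s, c j • v j = 0 := by
        rw [← h1]
        refine Finset.sum_congr rfl fun j hj => ?_
        rw [← hc j hj, algebraMap_smul]
      have h10 := (linearIndependent_iff'.1 hl) (insert a s) c h9 a (Finset.mem_insert_self a s)
      have h11 := hc a (Finset.mem_insert_self a s)
      rw [h10, map_zero, hμa] at h11
      exact zero_ne_one h11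

theorem main_aux (w : I → ι → Ω) (y : I → Ω)
    (hw : ∀ i x, w i x ^ Fintype.card k = w (π i) x)
    (hy : ∀ i, y i ^ Fintype.card k = y (π i)) (hl : LinearIndependent Ω w) :
    {c : ι → k | ∀ i, ∑ x, algebraMap k Ω (c x) * w i x = y i}.ncard *
      Fintype.card k ^ Fintype.card I = Fintype.card k ^ Fintype.card ι := by
  classical
  let A : (ι → k) →ₗ[k] (I → Ω) :=
    { toFun := fun c i => ∑ x, algebraMap k Ω (c x) * w i x
      map_add' := by
        intro a b; funext i
        simp only [Pi.add_apply, map_add, add_mul, Finset.sum_add_distrib]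
      map_smul' := by
        intro a b; funext i
        simp only [Pi.smul_apply, smul_eq_mul, map_mul, RingHom.id_apply, Algebra.smul_def,
          Finset.mul_sum, mul_assoc] }
  have hA : ∀ c i, A c i = ∑ x, algebraMap k Ω (c x) * w i x := fun c i => rfl
  have hAfix : ∀ c i, A c i ^ Fintype.card k = A c (π i) := by
    intro c i
    rw [hA, hA, sum_pow_q]
    refine Finset.sum_congr rfl fun x _ => ?_
    rw [mul_pow, hw, ← map_pow, FiniteField.pow_card]
  let V := LinearMap.range A
  let b := Module.finBasis k V
  let v : Fin (Module.finrank k V) → I → Ω := fun j => (b j : I → Ω)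
  have hvlin : LinearIndependent k v := by
    have := b.linearIndependent.map' V.subtype (Submodule.ker_subtype V)
    exact this
  have hvfix : ∀ j i, v j i ^ Fintype.card k = v j (π i) := by
    intro j i
    obtain ⟨c, hc⟩ := (b j).2
    have : v j = A c := hc.symm
    rw [this]; exact hAfix c i
  have hvΩ : LinearIndependent Ω v := by
    rw [linearIndependent_iff']
    exact fun s l hs => indep_up π v hvfix hvlin s l hs
  have hspanV : ∀ z ∈ V, ∃ c : Fin (Module.finrank k V) → k, z = ∑ j, c j • v j := by
    intro z hz
    refine ⟨fun j => b.repr ⟨z, hz⟩ j, ?_⟩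
    have := congrArg (Submodule.subtype V) (b.sum_repr ⟨z, hz⟩)
    simp only [map_sum, map_smul] at this
    exact this.symm
  have hspan : Submodule.span Ω (Set.range v) = ⊤ := by
    let W : Matrix I ι Ω := Matrix.of w
    have hrank : W.rank = Fintype.card I := LinearIndependent.rank_matrix (M := W) hl
    have hcols : Submodule.span Ω (Set.range W.col) = ⊤ := by
      apply Submodule.eq_top_of_finrank_eq
      rw [← Matrix.rank_eq_finrank_span_cols, hrank, Module.finrank_fintype_fun_eq_card]
    rw [eq_top_iff, ← hcols, Submodule.span_le]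
    rintro _ ⟨x, rfl⟩
    have h1 : W.col x = A (Pi.single x 1) := by
      funext i
      rw [hA, Finset.sum_eq_single x]
      · simp [W, Matrix.col]
      · intro x' _ hx'
        simp [hx']
      · intro h; exact absurd (Finset.mem_univ x) h
    obtain ⟨c, hc⟩ := hspanV (A (Pi.single x 1)) (LinearMap.mem_range_self A _)
    show W.col x ∈ Submodule.span Ω (Set.range v)
    rw [h1, hc]
    refine Submodule.sum_mem _ fun j _ => ?_
    rw [← algebraMap_smul Ω (c j) (v j)]
    exact Submodule.smul_mem _ _ (Submodule.subset_span ⟨j, rfl⟩)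
  let B := Module.Basis.mk hvΩ hspan.ge
  have hcard : Module.finrank k V = Fintype.card I := by
    have h1 := Module.finrank_eq_card_basis B
    rw [Module.finrank_fintype_fun_eq_card, Fintype.card_fin] at h1
    exact h1.symm
  -- `y` is in the range
  have hyV : ∃ c₀, A c₀ = y := by
    have h1 : y = ∑ j, B.repr y j • v j := by
      have := B.sum_repr y
      conv_lhs => rw [← this]
      refine Finset.sum_congr rfl fun j _ => ?_
      rw [Module.Basis.mk_apply]
    have h2 : ∑ j, ((B.repr y j) ^ Fintype.card k - B.repr y j) • v j = 0 := by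
      simp only [sub_smul, Finset.sum_sub_distrib]
      rw [← h1, sub_eq_zero]
      funext i
      have h3 := congrFun h1 (π.symm i)
      have h4 := hy (π.symm i)
      rw [Equiv.apply_symm_apply] at h4
      rw [← h4, h3, Finset.sum_apply, Finset.sum_apply, sum_pow_q]
      refine Finset.sum_congr rfl fun j _ => ?_
      rw [Pi.smul_apply, Pi.smul_apply, smul_eq_mul, smul_eq_mul, mul_pow, hvfix j (π.symm i),
        Equiv.apply_symm_apply]
    have h5 := (linearIndependent_iff'.1 hvΩ) Finset.univ _ h2
    have h6 : ∀ j, ∃ c : k, algebraMap k Ω c = B.repr y j := fun j =>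
      mem_of_pow _ (sub_eq_zero.1 (h5 j (Finset.mem_univ j)))
    choose c hc using h6
    have h7 : y ∈ V := by
      rw [h1]
      refine Submodule.sum_mem _ fun j _ => ?_
      rw [← hc j, algebraMap_smul]
      exact Submodule.smul_mem _ _ (b j).2
    exact h7
  obtain ⟨c₀, hc₀⟩ := hyV
  have hset : {c : ι → k | ∀ i, ∑ x, algebraMap k Ω (c x) * w i x = y i} =
      (fun c => c₀ + c) '' (LinearMap.ker A : Set (ι → k)) := by
    ext c
    simp only [Set.mem_ofPred_eq, Set.mem_image, SetLike.mem_coe, LinearMap.mem_ker]
    constructor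
    · intro h
      refine ⟨c - c₀, ?_, by abel⟩
      rw [map_sub, hc₀, sub_eq_zero]
      funext i; exact h i
    · rintro ⟨d, hd, rfl⟩ i
      have := congrFun (show A (c₀ + d) = y by rw [map_add, hd, add_zero, hc₀]) i
      exact this
  rw [hset, Set.ncard_image_of_injective _ (add_right_injective c₀)]
  have hker : ((LinearMap.ker A : Set (ι → k))).ncard =
      Fintype.card k ^ Module.finrank k (LinearMap.ker A) := by
    rw [← Nat.card_coe_set_eq, ← Nat.card_eq_fintype_card (α := k)]
    exact Module.natCard_eq_pow_finrank (K := k) (V := LinearMap.ker A)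
  rw [hker, ← pow_add, ← hcard]
  congr 1
  have := LinearMap.finrank_range_add_finrank_ker A
  rw [Module.finrank_fintype_fun_eq_card] at this
  rw [← this, add_comm]

end

theorem main : Pool.Agent.N89.BD.S_LNO := by
  intro k Ω _ _ _ _ ι I _ _ π w y hw hy hl
  exact main_aux π w y hw hy hl

end Pool.Agent.N614.BD.LNO
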